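import Pool.Agent.K3h38.HH.Stm

set_option autoImplicit false

/-! # Relations between the members of a weakly regular sequence -/

namespace Pool.Agent.K3h95.HH

open MvPolynomial

theorem koszul_aux {R : Type*} [CommRing R] : ∀ (n : ℕ) (h : Fin n → R),
    (∀ i : Fin n, ∀ x : R, x * h i ∈ Ideal.span (h '' {j | j < i}) →
      x ∈ Ideal.span (h '' {j | j < i})) →
    ∀ v : Fin n → R, ∑ i, v i * h i = 0 →
    ∃ B : Fin n → Fin n → R,
      (∀ i l, B i l = - B l i) ∧ (∀ i, B i i = 0) ∧ ∀ i, v i = ∑ l, B i l * h l := by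
  intro n
  induction n with
  | zero =>
    intro h _ v _
    exact ⟨fun _ _ => 0, fun _ _ => by simp, fun _ => rfl, fun i => i.elim0⟩
  | succ n ih =>
    intro h hreg v hv
    have himg : h '' {j | j < Fin.last n} = Set.range (fun i : Fin n => h i.castSucc) := by
      ext x
      constructor
      · rintro ⟨j, hj, rfl⟩
        refine ⟨⟨j, by simpa [Fin.lt_def] using hj⟩, rfl⟩
      · rintro ⟨i, rfl⟩
        exact ⟨i.castSucc, Fin.castSucc_lt_last i, rfl⟩
    rw [Fin.sum_univ_castSucc] at hv
    have h1 : v (Fin.last n) * h (Fin.last n) ∈ Ideal.span (h '' {j | j < Fin.last n}) := by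
      have e1 : v (Fin.last n) * h (Fin.last n) = - ∑ i : Fin n, v i.castSucc * h i.castSucc :=
        eq_neg_of_add_eq_zero_right hv
      rw [e1]
      apply Ideal.neg_mem_iff _ |>.2
      apply Ideal.sum_mem
      intro i _
      apply Ideal.mul_mem_left
      exact Ideal.subset_span ⟨i.castSucc, Fin.castSucc_lt_last i, rfl⟩
    have h2 := hreg _ _ h1
    rw [himg, Ideal.mem_span_range_iff_exists_fun] at h2
    obtain ⟨a, ha⟩ := h2
    have h3 : ∑ i : Fin n, (v i.castSucc + a i * h (Fin.last n)) * h i.castSucc = 0 := by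
      have e2 : ∑ i : Fin n, (v i.castSucc + a i * h (Fin.last n)) * h i.castSucc =
          ∑ i : Fin n, v i.castSucc * h i.castSucc +
            (∑ i : Fin n, a i * h i.castSucc) * h (Fin.last n) := by
        rw [Finset.sum_mul, ← Finset.sum_add_distrib]
        refine Finset.sum_congr rfl fun i _ => ?_
        ring
      rw [e2, ha]
      exact hv
    have hreg' : ∀ i : Fin n, ∀ x : R,
        x * h i.castSucc ∈ Ideal.span ((fun i : Fin n => h i.castSucc) '' {j | j < i}) →
        x ∈ Ideal.span ((fun i : Fin n => h i.castSucc) '' {j | j < i}) := by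
      intro i x hx
      have himg2 : (fun i : Fin n => h i.castSucc) '' {j | j < i} = h '' {j | j < i.castSucc} := by
        ext y
        constructor
        · rintro ⟨j, hj, rfl⟩
          exact ⟨j.castSucc, Fin.castSucc_lt_castSucc_iff.2 hj, rfl⟩
        · rintro ⟨j, hj, rfl⟩
          have hj' : (j : ℕ) < i := hj
          exact ⟨⟨j, hj'.trans i.2⟩, hj', rfl⟩
      rw [himg2] at hx ⊢
      exact hreg _ _ hx
    obtain ⟨B, hB1, hB2, hB3⟩ := ih (fun i => h i.castSucc) hreg' _ h3
    refine ⟨fun i l => Fin.lastCases (motive := fun _ => R)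
      (Fin.lastCases (motive := fun _ => R) 0 (fun l => a l) l)
      (fun i => Fin.lastCases (motive := fun _ => R) (-(a i)) (fun l => B i l) l) i, ?_, ?_, ?_⟩
    · intro i l
      refine Fin.lastCases ?_ (fun i => ?_) i <;> refine Fin.lastCases ?_ (fun l => ?_) l
      · simp
      · simp
      · simp
      · simpa using hB1 i l
    · intro i
      refine Fin.lastCases ?_ (fun i => ?_) i
      · simp
      · simpa using hB2 i
    · intro i
      refine Fin.lastCases ?_ (fun i => ?_) i
      · rw [Fin.sum_univ_castSucc]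
        simp [ha]
      · rw [Fin.sum_univ_castSucc]
        simp only [Fin.lastCases_castSucc, Fin.lastCases_last]
        have := hB3 i
        rw [← this]
        ring

theorem t_REG : Pool.Agent.K3h38.HH.S_REG := by
  intro N h hw v hv
  refine koszul_aux N h ?_ v hv
  intro i x hx
  rw [RingTheory.Sequence.isWeaklyRegular_iff] at hw
  have hi : (i : ℕ) < (List.ofFn h).length := by simp
  have h1 := hw i hi
  have hJ : (Ideal.ofList ((List.ofFn h).take i) • ⊤ :
      Submodule (MvPolynomial (Fin N) ℂ) (MvPolynomial (Fin N) ℂ)) =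
      Ideal.span (h '' {j | j < i}) := by
    rw [smul_eq_mul, Ideal.mul_top, Ideal.ofList]
    congr 1
    ext y
    rw [Set.mem_ofPred_eq, List.mem_take_iff_getElem]
    constructor
    · rintro ⟨j, hj, rfl⟩
      rw [List.length_ofFn] at hj
      refine ⟨⟨j, by omega⟩, ?_, ?_⟩
      · show j < (i : ℕ)
        omega
      · simp
    · rintro ⟨j, hj, rfl⟩
      have hj' : (j : ℕ) < i := hj
      refine ⟨j, ?_, by simp⟩
      rw [List.length_ofFn]
      have := j.2
      omega
  rw [hJ] at h1
  have h2 : (List.ofFn h)[(i : ℕ)] = h i := by simp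
  rw [h2] at h1
  exact mem_of_isSMulRegular_quotient_of_smul_mem h1 (by rw [smul_eq_mul, mul_comm]; exact hx)

end Pool.Agent.K3h95.HH
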